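import Pool.Agent.Lib.MP_9a0bf1_pr.T96e

set_option autoImplicit false

open MeasureTheory ProbabilityTheory Pool.Agent.Lib.MP_9a0bf1_pr
open scoped ENNReal NNReal

namespace Pool.Agent.Results.MP_9a0bf1_pr.SumFailsAC

/-- Two independent real Levy processes satisfying (H), with absolutely continuous laws at all
positive times, whose sum has a semipolar Borel set that is not polar; it is even hit almost
surely from almost every starting point. -/
theorem result : ∃ (Ω : Type) (_ : MeasurableSpace Ω) (P : Measure Ω)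
    (_ : IsProbabilityMeasure P) (X Y : ℝ≥0 → Ω → ℝ), IsLevy P X ∧ IsLevy P Y ∧
      IndepFun (fun ω t => X t ω) (fun ω t => Y t ω) P ∧ Hunt P X ∧ Hunt P Y ∧
      (∀ t, 0 < t → P.map (X t) ≪ volume ∧ P.map (Y t) ≪ volume ∧ P.map ((X + Y) t) ≪ volume) ∧
      ∃ A, MeasurableSet A ∧ Semipolar P (X + Y) A ∧ ¬Polar P (X + Y) A ∧
        ∀ᵐ x : ℝ, ∀ᵐ ω ∂P, hit (X + Y) x A ω < ∞ :=
  T96.main

end Pool.Agent.Results.MP_9a0bf1_pr.SumFailsAC
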